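import Mathlib

/-!
Left factors with a finite first moment do not suffice for the null sequence of the generator
differences in the augmentation ideal of the free group of infinite rank, whatever their number.

For each generator a_j and each real t, the exponent sum of a_j gives the character
g ↦ exp (i t ex_j(g)) of the group, hence a character of the convolution algebra. If the values
of the factors b_1, ..., b_m at these characters are O(t), then compactness gives numbers
L_i(j), subsequential limits of the value of b_i at the j-th character divided by t. A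
factorisation a_l - 1 = sum_i b_i * c_{i,l} for all l ≤ m would give
i δ_{jl} = sum_i L_i(j) ε(c_{i,l}), so that the identity matrix of size m + 1 would have rank at
most m.
-/

set_option autoImplicit false

namespace Pool.Agent.Results.MP_2822c4_an.MomentFactors

open Filter Topology

/-- The homomorphism sending the generator a_j to 1 and the other generators to 0. -/
noncomputable def expo (j : ℕ) : FreeGroup ℕ →* Multiplicative ℤ :=
  FreeGroup.lift (fun k => if k = j then Multiplicative.ofAdd 1 else 1)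

/-- The exponent sum of the generator a_j in the group element g. -/
noncomputable def ex (j : ℕ) (g : FreeGroup ℕ) : ℤ := (expo j g).toAdd

theorem ex_mul (j : ℕ) (g h : FreeGroup ℕ) : ex j (g * h) = ex j g + ex j h := by
  simp [ex]

theorem ex_one (j : ℕ) : ex j 1 = 0 := by simp [ex]

theorem ex_of (j k : ℕ) : ex j (FreeGroup.of k) = if k = j then 1 else 0 := by
  unfold ex expo
  rw [FreeGroup.lift_apply_of]
  split_ifs <;> simp

theorem ex_mk_bound (j : ℕ) (L : List (ℕ × Bool)) : |ex j (FreeGroup.mk L)| ≤ L.length := by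
  induction L with
  | nil =>
    have : (FreeGroup.mk ([] : List (ℕ × Bool))) = 1 := rfl
    rw [this, ex_one]; simp
  | cons x L ih =>
    have h1 : FreeGroup.mk (x :: L) = FreeGroup.mk [x] * FreeGroup.mk L := by
      rw [FreeGroup.mul_mk]; rfl
    have h2 : |ex j (FreeGroup.mk [x])| ≤ 1 := by
      obtain ⟨k, s⟩ := x
      cases s with
      | true =>
        have : FreeGroup.mk [(k, true)] = FreeGroup.of k := rfl
        rw [this, ex_of]; split_ifs <;> simp
      | false =>
        have h3 : FreeGroup.mk [(k, false)] = (FreeGroup.of k)⁻¹ := rfl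
        have h4 := ex_mul j (FreeGroup.of k) (FreeGroup.of k)⁻¹
        rw [mul_inv_cancel, ex_one] at h4
        have h5 : ex j (FreeGroup.of k)⁻¹ = - ex j (FreeGroup.of k) := by omega
        rw [h3, h5, abs_neg, ex_of]; split_ifs <;> simp
    rw [h1, ex_mul]
    refine (abs_add_le _ _).trans ?_
    rw [List.length_cons]
    push_cast
    linarith

theorem ex_bound (j : ℕ) (g : FreeGroup ℕ) : |ex j g| ≤ (FreeGroup.norm g : ℤ) := by
  have h := ex_mk_bound j g.toWord
  rw [FreeGroup.mk_toWord] at h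
  exact h

/-- The character g ↦ exp (i t ex_j(g)). -/
noncomputable def chi (j : ℕ) (t : ℝ) (g : FreeGroup ℕ) : ℂ :=
  Complex.exp (((t * (ex j g : ℝ) : ℝ) : ℂ) * Complex.I)

theorem norm_chi (j : ℕ) (t : ℝ) (g : FreeGroup ℕ) : ‖chi j t g‖ = 1 :=
  Complex.norm_exp_ofReal_mul_I _

theorem chi_mul (j : ℕ) (t : ℝ) (g h : FreeGroup ℕ) :
    chi j t (g * h) = chi j t g * chi j t h := by
  unfold chi
  rw [← Complex.exp_add, ex_mul]
  congr 1
  push_cast
  ring

theorem chi_one (j : ℕ) (t : ℝ) : chi j t 1 = 1 := by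
  unfold chi; rw [ex_one]; simp

theorem chi_of (j k : ℕ) (t : ℝ) :
    chi j t (FreeGroup.of k) = if k = j then Complex.exp ((t : ℂ) * Complex.I) else 1 := by
  unfold chi; rw [ex_of]; split_ifs <;> simp

/-- The value of the absolutely summable function f at the character chi j t. -/
noncomputable def ft (j : ℕ) (t : ℝ) (f : FreeGroup ℕ → ℂ) : ℂ := ∑' g, f g * chi j t g

/-- Convolution. -/
noncomputable def cv (b f : FreeGroup ℕ → ℂ) (x : FreeGroup ℕ) : ℂ :=
  ∑' y, b y * f (y⁻¹ * x)

/-- The shear (g, u) to (g, g inverse u). -/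
def shear (G : Type) [Group G] : G × G ≃ G × G where
  toFun p := (p.1, p.1⁻¹ * p.2)
  invFun p := (p.1, p.1 * p.2)
  left_inv p := by simp
  right_inv p := by simp

theorem summable_prod {m S : FreeGroup ℕ → ℂ} (hm : Summable fun g => ‖m g‖)
    (hS : Summable fun g => ‖S g‖) :
    Summable fun p : FreeGroup ℕ × FreeGroup ℕ => ‖m p.1‖ * ‖S p.2‖ :=
  hm.mul_of_nonneg hS (fun _ => norm_nonneg _) (fun _ => norm_nonneg _)

theorem summable_cv {m S : FreeGroup ℕ → ℂ} (hm : Summable fun g => ‖m g‖)
    (hS : Summable fun g => ‖S g‖) : Summable fun u => ‖cv m S u‖ := by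
  have h1 : Summable fun p : FreeGroup ℕ × FreeGroup ℕ => ‖m p.1‖ * ‖S (p.1⁻¹ * p.2)‖ := by
    have := (shear (FreeGroup ℕ)).summable_iff.2 (summable_prod hm hS)
    exact this
  have h2 : Summable fun p : FreeGroup ℕ × FreeGroup ℕ => ‖m p.2‖ * ‖S (p.2⁻¹ * p.1)‖ := by
    have := (Equiv.prodComm (FreeGroup ℕ) (FreeGroup ℕ)).summable_iff.2 h1
    exact this
  have h3 := h2.prod
  refine Summable.of_nonneg_of_le (fun _ => norm_nonneg _) (fun u => ?_) h3
  have h4 : Summable fun h => ‖m h‖ * ‖S (h⁻¹ * u)‖ := h2.prod_factor u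
  have h5 : Summable fun h => ‖m h * S (h⁻¹ * u)‖ := by
    simpa only [norm_mul] using h4
  refine (norm_tsum_le_tsum_norm h5).trans (le_of_eq ?_)
  simp only [norm_mul]

theorem tsum_cv {m S : FreeGroup ℕ → ℂ} (hm : Summable fun g => ‖m g‖)
    (hS : Summable fun g => ‖S g‖) : ∑' u, cv m S u = (∑' g, m g) * ∑' g, S g := by
  have h1 : Summable fun p : FreeGroup ℕ × FreeGroup ℕ => m p.1 * S (p.1⁻¹ * p.2) := by
    have := (shear (FreeGroup ℕ)).summable_iff.2 (summable_prod hm hS)
    refine Summable.of_norm ?_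
    simp only [norm_mul]
    exact this
  have h2 : ∑' u, ∑' h, m h * S (h⁻¹ * u) = ∑' h, ∑' u, m h * S (h⁻¹ * u) := by
    exact Summable.tsum_comm (f := fun h u => m h * S (h⁻¹ * u)) h1
  unfold cv
  rw [h2]
  have h3 : ∀ h, ∑' u, m h * S (h⁻¹ * u) = m h * ∑' g, S g := by
    intro h
    rw [tsum_mul_left]
    congr 1
    exact (Equiv.mulLeft h⁻¹).tsum_eq S
  simp_rw [h3]
  rw [tsum_mul_right]

theorem summable_chi {f : FreeGroup ℕ → ℂ} (hf : Summable fun g => ‖f g‖) (j : ℕ) (t : ℝ) :
    Summable fun g => ‖f g * chi j t g‖ := by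
  simp only [norm_mul, norm_chi, mul_one]
  exact hf

/-- The characters are multiplicative for convolution. -/
theorem ft_cv {b f : FreeGroup ℕ → ℂ} (hb : Summable fun g => ‖b g‖)
    (hf : Summable fun g => ‖f g‖) (j : ℕ) (t : ℝ) :
    ft j t (cv b f) = ft j t b * ft j t f := by
  have h := tsum_cv (summable_chi hb j t) (summable_chi hf j t)
  unfold ft
  rw [← h]
  refine tsum_congr fun u => ?_
  unfold cv
  rw [← tsum_mul_right]
  refine tsum_congr fun y => ?_
  have h1 : chi j t u = chi j t y * chi j t (y⁻¹ * u) := by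
    rw [← chi_mul]; congr 1; group
  rw [h1]; ring

/-- Values at the characters depend continuously on t. -/
theorem ft_tendsto {f : FreeGroup ℕ → ℂ} (hf : Summable fun g => ‖f g‖) (j : ℕ)
    {u : ℕ → ℝ} (hu : Tendsto u atTop (𝓝 0)) :
    Tendsto (fun n => ft j (u n) f) atTop (𝓝 (∑' g, f g)) := by
  unfold ft
  refine tendsto_tsum_of_dominated_convergence (bound := fun g => ‖f g‖) hf (fun g => ?_) ?_
  · have h1 : Tendsto (fun n => chi j (u n) g) atTop (𝓝 1) := by
      unfold chi
      have h2 : Continuous fun t : ℝ =>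
          Complex.exp (((t * (ex j g : ℝ) : ℝ) : ℂ) * Complex.I) := by fun_prop
      have h3 := (h2.tendsto 0).comp hu
      simp only [zero_mul, Complex.ofReal_zero, Complex.exp_zero] at h3
      exact h3
    have h4 := h1.const_mul (f g)
    rw [mul_one] at h4
    exact h4
  · refine Eventually.of_forall fun n g => ?_
    rw [norm_mul, norm_chi, mul_one]

/-- The difference of the point masses at the generator a_j and at the identity. -/
noncomputable def genDiff (i : ℕ) (s : FreeGroup ℕ) : ℂ :=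
  (if s = FreeGroup.of i then 1 else 0) - (if s = 1 then 1 else 0)

theorem pt_eq (j : ℕ) (t : ℝ) (c : FreeGroup ℕ) :
    (fun g : FreeGroup ℕ => (if g = c then (1 : ℂ) else 0) * chi j t g) =
      fun g => if g = c then chi j t c else 0 := by
  funext g
  by_cases h : g = c
  · rw [if_pos h, if_pos h, one_mul, h]
  · rw [if_neg h, if_neg h, zero_mul]

theorem ft_genDiff (j k : ℕ) (t : ℝ) :
    ft j t (genDiff k) = (if k = j then Complex.exp ((t : ℂ) * Complex.I) else 1) - 1 := by
  unfold ft genDiff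
  have hs : ∀ c : FreeGroup ℕ, Summable (fun g : FreeGroup ℕ =>
      (if g = c then (1 : ℂ) else 0) * chi j t g) := by
    intro c
    rw [pt_eq]
    exact (hasSum_ite_eq c _).summable
  have ht : ∀ c : FreeGroup ℕ, ∑' g : FreeGroup ℕ,
      (if g = c then (1 : ℂ) else 0) * chi j t g = chi j t c := by
    intro c
    rw [pt_eq]
    exact tsum_ite_eq c _
  simp_rw [sub_mul]
  rw [(hs _).tsum_sub (hs _), ht, ht, chi_one, chi_of]

/-- The difference quotients of exp (i t) at 0. -/
theorem exp_quot {u : ℕ → ℝ} (hu : Tendsto u atTop (𝓝 0)) (hu0 : ∀ n, u n ≠ 0) :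
    Tendsto (fun n => (Complex.exp ((u n : ℂ) * Complex.I) - 1) / (u n : ℂ)) atTop
      (𝓝 Complex.I) := by
  have h1 : HasDerivAt (fun t : ℝ => (t : ℂ)) 1 0 := by
    have := (hasDerivAt_id (0 : ℝ)).ofReal_comp
    simpa using this
  have h2 : HasDerivAt (fun t : ℝ => Complex.exp ((t : ℂ) * Complex.I)) Complex.I 0 := by
    have := (h1.mul_const Complex.I).cexp
    simpa using this
  have h3 := hasDerivAt_iff_tendsto_slope.1 h2
  have h4 : Tendsto u atTop (𝓝[≠] 0) := by
    rw [tendsto_nhdsWithin_iff]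
    exact ⟨hu, Eventually.of_forall fun n => hu0 n⟩
  refine (h3.comp h4).congr fun n => ?_
  simp only [Function.comp_apply, slope_def_module, sub_zero, Complex.ofReal_zero, zero_mul,
    Complex.exp_zero, Complex.real_smul, Complex.ofReal_inv]
  rw [div_eq_inv_mul]

/-- If the values of the left factors at the characters chi j t are O(t) for each j, then a
finite family of m left factors does not produce the m + 1 first generator differences, whatever
nonzero weights they carry. -/
theorem general (m : ℕ) (b : Fin m → FreeGroup ℕ → ℂ) (hb : ∀ i, Summable fun g => ‖b i g‖)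
    (hl : ∀ i j, ∃ K : ℝ, ∀ t : ℝ, ‖ft j t (b i)‖ ≤ K * |t|)
    (c : ℕ → Fin m → FreeGroup ℕ → ℂ) (hc : ∀ k i, Summable fun g => ‖c k i g‖)
    (w : ℕ → ℂ) (hw : ∀ k, w k ≠ 0)
    (h : ∀ k ≤ m, ∀ x, w k * genDiff k x = ∑ i, cv (b i) (c k i) x) : False := by
  have hid : ∀ k ≤ m, ∀ (j : ℕ) (t : ℝ),
      w k * ft j t (genDiff k) = ∑ i, ft j t (b i) * ft j t (c k i) := by
    intro k hk j t
    have h1 : w k * ft j t (genDiff k) = ft j t (fun x => w k * genDiff k x) := by
      unfold ft
      rw [← tsum_mul_left]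
      refine tsum_congr fun g => ?_
      ring
    rw [h1]
    have h2 : (fun x => w k * genDiff k x) = fun x => ∑ i, cv (b i) (c k i) x :=
      funext (h k hk)
    rw [h2]
    have h3 : ∀ i, Summable fun g => cv (b i) (c k i) g * chi j t g := fun i =>
      (summable_chi (summable_cv (hb i) (hc k i)) j t).of_norm
    have h4 : ft j t (fun x => ∑ i, cv (b i) (c k i) x) = ∑ i, ft j t (cv (b i) (c k i)) := by
      unfold ft
      rw [← Summable.tsum_finsetSum (fun i _ => h3 i)]
      refine tsum_congr fun g => ?_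
      rw [Finset.sum_mul]
    rw [h4]
    exact Finset.sum_congr rfl fun i _ => ft_cv (hb i) (hc k i) j t
  have hlim : ∀ j : ℕ, ∃ L : Fin m → ℂ, ∀ k ≤ m,
      w k * (if k = j then Complex.I else 0) = ∑ i, L i * ∑' g, c k i g := by
    intro j
    choose K hK using fun i => hl i j
    set u : ℕ → ℝ := fun n => 1 / ((n : ℝ) + 1) with hu
    have hu0 : ∀ n, u n ≠ 0 := fun n => by
      have : (0 : ℝ) < (n : ℝ) + 1 := by positivity
      exact (one_div_pos.2 this).ne'
    have hulim : Tendsto u atTop (𝓝 0) := tendsto_one_div_add_atTop_nhds_zero_nat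
    set v : ℕ → (Fin m → ℂ) := fun n i => ft j (u n) (b i) / (u n : ℂ) with hv
    have hvb : ∀ n, v n ∈ Metric.closedBall (0 : Fin m → ℂ) (∑ i, |K i|) := by
      intro n
      rw [mem_closedBall_zero_iff, pi_norm_le_iff_of_nonneg
        (Finset.sum_nonneg fun i _ => abs_nonneg _)]
      intro i
      have h5 : 0 < |u n| := abs_pos.2 (hu0 n)
      rw [hv]
      simp only
      rw [norm_div, Complex.norm_real, Real.norm_eq_abs, div_le_iff₀ h5]
      refine (hK i (u n)).trans ?_
      refine mul_le_mul_of_nonneg_right ?_ h5.le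
      exact (le_abs_self _).trans
        (Finset.single_le_sum (f := fun i => |K i|) (fun i _ => abs_nonneg _) (Finset.mem_univ i))
    obtain ⟨L, -, φ, hφ, hL⟩ := tendsto_subseq_of_bounded Metric.isBounded_closedBall hvb
    refine ⟨L, fun k hk => ?_⟩
    have huφ : Tendsto (fun n => u (φ n)) atTop (𝓝 0) := hulim.comp hφ.tendsto_atTop
    have hR : Tendsto (fun n => ∑ i, v (φ n) i * ft j (u (φ n)) (c k i)) atTop
        (𝓝 (∑ i, L i * ∑' g, c k i g)) := by
      refine tendsto_finsetSum _ fun i _ => ?_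
      refine Tendsto.mul ?_ (ft_tendsto (hc k i) j huφ)
      exact (tendsto_pi_nhds.1 hL) i
    have hLhs : Tendsto (fun n => w k * (ft j (u (φ n)) (genDiff k) / (u (φ n) : ℂ))) atTop
        (𝓝 (w k * (if k = j then Complex.I else 0))) := by
      refine Tendsto.const_mul _ ?_
      by_cases hkj : k = j
      · rw [if_pos hkj]
        refine (exp_quot huφ (fun n => hu0 _)).congr fun n => ?_
        rw [ft_genDiff, if_pos hkj]
      · rw [if_neg hkj]
        refine tendsto_const_nhds.congr fun n => ?_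
        rw [ft_genDiff, if_neg hkj, sub_self, zero_div]
    refine tendsto_nhds_unique hLhs (hR.congr fun n => ?_)
    rw [← mul_div_assoc, hid k hk, Finset.sum_div]
    refine Finset.sum_congr rfl fun i _ => ?_
    rw [hv]
    simp only
    ring
  choose L hL using hlim
  set A : Matrix (Fin (m + 1)) (Fin m) ℂ := Matrix.of fun j i => L j i with hA
  set B : Matrix (Fin m) (Fin (m + 1)) ℂ :=
    Matrix.of fun i l => (∑' g, c l i g) / (w l * Complex.I) with hB
  have hAB : A * B = 1 := by
    ext j l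
    have h6 := hL j l (by omega)
    have h7 : w l * Complex.I ≠ 0 := mul_ne_zero (hw _) Complex.I_ne_zero
    rw [Matrix.mul_apply, Matrix.one_apply]
    simp only [hA, hB, Matrix.of_apply, mul_div_assoc']
    rw [← Finset.sum_div, ← h6]
    by_cases hjl : j = l
    · subst hjl
      rw [if_pos rfl, if_pos rfl, div_self h7]
    · have h8 : ¬ ((l : ℕ) = (j : ℕ)) := fun h => hjl (Fin.ext h.symm)
      rw [if_neg h8, if_neg hjl, mul_zero, zero_div]
  have h9 := Matrix.rank_mul_le_left A B
  rw [hAB, Matrix.rank_one, Fintype.card_fin] at h9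
  have h10 := Matrix.rank_le_width A
  omega

/-- A finite first moment with respect to the word length, together with total sum zero, gives
the O(t) condition. -/
theorem moment_lip {b : FreeGroup ℕ → ℂ} (hb : Summable fun g => ‖b g‖) (hb0 : ∑' g, b g = 0)
    (hm : Summable fun g => ‖b g‖ * (FreeGroup.norm g : ℝ)) (j : ℕ) (t : ℝ) :
    ‖ft j t b‖ ≤ (∑' g, ‖b g‖ * (FreeGroup.norm g : ℝ)) * |t| := by
  have h1 : ft j t b = ∑' g, b g * (chi j t g - 1) := by
    have h2 : ft j t b = ft j t b - ∑' g, b g := by rw [hb0, sub_zero]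
    rw [h2]
    unfold ft
    rw [← (summable_chi hb j t).of_norm.tsum_sub hb.of_norm]
    refine tsum_congr fun g => ?_
    ring
  have h3 : ∀ g, ‖b g * (chi j t g - 1)‖ ≤ ‖b g‖ * (FreeGroup.norm g : ℝ) * |t| := by
    intro g
    rw [norm_mul, mul_assoc]
    refine mul_le_mul_of_nonneg_left ?_ (norm_nonneg _)
    have h4 : ‖chi j t g - 1‖ ≤ |t * (ex j g : ℝ)| := by
      unfold chi
      have := Real.norm_exp_I_mul_ofReal_sub_one_le (x := t * (ex j g : ℝ))
      rw [Real.norm_eq_abs, mul_comm Complex.I] at this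
      exact this
    refine h4.trans ?_
    rw [abs_mul, mul_comm]
    refine mul_le_mul_of_nonneg_right ?_ (abs_nonneg _)
    have h5 := ex_bound j g
    have h6 : ((|ex j g| : ℤ) : ℝ) ≤ ((FreeGroup.norm g : ℤ) : ℝ) := by exact_mod_cast h5
    rw [Int.cast_abs] at h6
    simpa using h6
  rw [h1, ← tsum_mul_right]
  have h7 : Summable fun g => ‖b g‖ * (FreeGroup.norm g : ℝ) * |t| := hm.mul_right _
  have h8 : Summable fun g => ‖b g * (chi j t g - 1)‖ :=
    Summable.of_nonneg_of_le (fun _ => norm_nonneg _) h3 h7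
  exact (norm_tsum_le_tsum_norm h8).trans (h8.tsum_le_tsum h3 h7)

/-- The null sequence f_k = (a_k - 1) / (k + 1) of the augmentation ideal of the free group on
a_0, a_1, ... is not produced by any finite number m of left factors whose values at the
characters g ↦ exp (i t ex_j(g)) are O(t), in particular by left factors of the augmentation
ideal with a finite first moment for the word length: one of the m + 1 first terms of the
sequence is not a sum of products b_i * c_{i,k} with absolutely summable c_{i,k}. -/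
theorem result :
    ∃ f : ℕ → FreeGroup ℕ → ℂ,
      (∀ k x, f k x = 1 / ((k : ℂ) + 1) *
        ((if x = FreeGroup.of k then 1 else 0) - (if x = 1 then 1 else 0))) ∧
      (∀ k, Summable fun x => ‖f k x‖) ∧ (∀ k, ∑' x, f k x = 0) ∧
      Tendsto (fun k => ∑' x, ‖f k x‖) atTop (𝓝 0) ∧
      (∀ (m : ℕ) (b : Fin m → FreeGroup ℕ → ℂ), (∀ i, Summable fun g => ‖b i g‖) →
        (∀ i j, ∃ K : ℝ, ∀ t : ℝ,
          ‖∑' g, b i g * Complex.exp (((t * (ex j g : ℝ) : ℝ) : ℂ) * Complex.I)‖ ≤ K * |t|) →
        ∀ c : ℕ → Fin m → FreeGroup ℕ → ℂ, (∀ k i, Summable fun g => ‖c k i g‖) →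
          ∃ k ≤ m, ∃ x, f k x ≠ ∑ i, ∑' y, b i y * c k i (y⁻¹ * x)) ∧
      (∀ (m : ℕ) (b : Fin m → FreeGroup ℕ → ℂ), (∀ i, Summable fun g => ‖b i g‖) →
        (∀ i, ∑' g, b i g = 0) →
        (∀ i, Summable fun g => ‖b i g‖ * (FreeGroup.norm g : ℝ)) →
        ∀ c : ℕ → Fin m → FreeGroup ℕ → ℂ, (∀ k i, Summable fun g => ‖c k i g‖) →
          ∃ k ≤ m, ∃ x, f k x ≠ ∑ i, ∑' y, b i y * c k i (y⁻¹ * x)) := by
  have hw : ∀ k : ℕ, (1 / ((k : ℂ) + 1)) ≠ 0 := fun k => by
    have : ((k : ℂ) + 1) ≠ 0 := Nat.cast_add_one_ne_zero k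
    exact one_div_ne_zero this
  have hd : ∀ c : FreeGroup ℕ,
      Summable (fun g : FreeGroup ℕ => if g = c then (1 : ℂ) else 0) :=
    fun c => (hasSum_ite_eq c 1).summable
  have hdn : ∀ c : FreeGroup ℕ, HasSum (fun g : FreeGroup ℕ => ‖if g = c then (1 : ℂ) else 0‖) 1 := by
    intro c
    have h1 : (fun g : FreeGroup ℕ => ‖if g = c then (1 : ℂ) else 0‖) =
        fun g => if g = c then (1 : ℝ) else 0 := by
      funext g; split_ifs <;> simp
    rw [h1]
    exact hasSum_ite_eq c 1
  have hgs : ∀ k, Summable fun x => ‖genDiff k x‖ := fun k =>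
    Summable.of_nonneg_of_le (fun _ => norm_nonneg _) (fun x => norm_sub_le _ _)
      ((hdn (FreeGroup.of k)).summable.add (hdn 1).summable)
  have hgb : ∀ k, ∑' x, ‖genDiff k x‖ ≤ 2 := fun k => by
    have h1 := (hgs k).tsum_le_tsum (fun x => norm_sub_le _ _)
      ((hdn (FreeGroup.of k)).summable.add (hdn 1).summable)
    rw [((hdn (FreeGroup.of k)).add (hdn 1)).tsum_eq] at h1
    refine h1.trans (le_of_eq ?_)
    norm_num
  have main : ∀ (m : ℕ) (b : Fin m → FreeGroup ℕ → ℂ), (∀ i, Summable fun g => ‖b i g‖) →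
      (∀ i j, ∃ K : ℝ, ∀ t : ℝ,
        ‖∑' g, b i g * Complex.exp (((t * (ex j g : ℝ) : ℝ) : ℂ) * Complex.I)‖ ≤ K * |t|) →
      ∀ c : ℕ → Fin m → FreeGroup ℕ → ℂ, (∀ k i, Summable fun g => ‖c k i g‖) →
        ∃ k ≤ m, ∃ x, 1 / ((k : ℂ) + 1) * genDiff k x ≠
          ∑ i, ∑' y, b i y * c k i (y⁻¹ * x) := by
    intro m b hb hl c hc
    by_contra hcon
    push Not at hcon
    exact general m b hb hl c hc (fun k => 1 / ((k : ℂ) + 1)) hw hcon
  refine ⟨fun k x => 1 / ((k : ℂ) + 1) * genDiff k x, fun _ _ => rfl, fun k => ?_, fun k => ?_,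
    ?_, main, ?_⟩
  · simp only [norm_mul]
    exact (hgs k).mul_left _
  · rw [tsum_mul_left]
    unfold genDiff
    rw [(hd _).tsum_sub (hd _), tsum_ite_eq, tsum_ite_eq, sub_self, mul_zero]
  · have h1 : ∀ k : ℕ, ∑' x, ‖1 / ((k : ℂ) + 1) * genDiff k x‖ ≤ 1 / ((k : ℝ) + 1) * 2 := by
      intro k
      simp only [norm_mul]
      rw [tsum_mul_left]
      have h2 : ‖1 / ((k : ℂ) + 1)‖ = 1 / ((k : ℝ) + 1) := by
        rw [norm_div, norm_one]
        congr 1
        have h3 : ((k : ℂ) + 1) = (((k : ℝ) + 1 : ℝ) : ℂ) := by push_cast; rfl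
        rw [h3, Complex.norm_real, Real.norm_eq_abs, abs_of_nonneg (by positivity)]
      rw [h2]
      exact mul_le_mul_of_nonneg_left (hgb k) (by positivity)
    have h4 : Tendsto (fun k : ℕ => 1 / ((k : ℝ) + 1) * 2) atTop (𝓝 0) := by
      have := (tendsto_one_div_add_atTop_nhds_zero_nat (𝕜 := ℝ)).mul_const 2
      rw [zero_mul] at this
      exact this
    exact squeeze_zero (fun k => tsum_nonneg fun _ => norm_nonneg _) h1 h4
  · intro m b hb hb0 hm c hc
    exact main m b hb (fun i j => ⟨_, fun t => moment_lip (hb i) (hb0 i) (hm i) j t⟩) c hc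

end Pool.Agent.Results.MP_2822c4_an.MomentFactors
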